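import Mathlib

/-!
# Zero estimate for the interpolation determinant in two logarithms (module TU-5)
-/

set_option autoImplicit false

open Polynomial

namespace Pool.Agent.Helper13.TU

lemma ze_coeff_prod {ι : Type*} (s : Finset ι) (f : ι → ℂ[X]) (n : ι → ℕ)
    (h : ∀ i ∈ s, (f i).natDegree ≤ n i) :
    (∏ i ∈ s, f i).natDegree ≤ ∑ i ∈ s, n i ∧
      (∏ i ∈ s, f i).coeff (∑ i ∈ s, n i) = ∏ i ∈ s, (f i).coeff (n i) := by
  classical
  induction s using Finset.induction_on with
  | empty => simp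
  | insert a s ha ih =>
    obtain ⟨h1, h2⟩ := ih (fun i hi => h i (Finset.mem_insert_of_mem hi))
    have h3 := h a (Finset.mem_insert_self a s)
    rw [Finset.prod_insert ha, Finset.sum_insert ha, Finset.prod_insert ha]
    refine ⟨natDegree_mul_le.trans (add_le_add h3 h1), ?_⟩
    rw [coeff_mul_add_eq_of_natDegree_le h3 h1, h2]

lemma ze_det {m : ℕ} (M : Matrix (Fin m) (Fin m) ℂ[X]) (n : Fin m → ℕ)
    (h : ∀ i j, (M i j).natDegree ≤ n j) :
    M.det.natDegree ≤ ∑ j, n j ∧
      M.det.coeff (∑ j, n j) = (Matrix.of fun i j => (M i j).coeff (n j)).det := by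
  have h1 : ∀ σ : Equiv.Perm (Fin m), (∏ i, M (σ i) i).natDegree ≤ ∑ j, n j ∧
      (∏ i, M (σ i) i).coeff (∑ j, n j) = ∏ i, (M (σ i) i).coeff (n i) := fun σ =>
    ze_coeff_prod Finset.univ (fun i => M (σ i) i) n (fun i _ => h _ _)
  constructor
  · rw [Matrix.det_apply]
    refine natDegree_sum_le_of_forall_le _ _ (fun σ _ => ?_)
    refine le_trans ?_ (h1 σ).1
    rcases Int.units_eq_one_or (Equiv.Perm.sign σ) with hs | hs <;> rw [hs] <;> simp
  · rw [Matrix.det_apply, Matrix.det_apply, finsetSum_coeff]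
    refine Finset.sum_congr rfl (fun σ _ => ?_)
    rw [Units.smul_def, Units.smul_def, coeff_smul, (h1 σ).2]
    simp

theorem zero_estimate {K L X Y r : ℕ} (hK : 0 < K) (hL : 0 < L) (A β : ℂ) (hA : A ≠ 0)
    (hβ : β ≠ 0) (hdist : ∀ x < L, ∀ x' < L, A ^ x = A ^ x' → x = x') (hXr : X ≤ r)
    (hLX : L ≤ X) (hcount : K * L ≤ (X - L) * Y)
    (P : Fin L → ℂ[X]) (hdeg : ∀ l, (P l).natDegree < K)
    (hzero : ∀ x < X, ∀ y < Y,
      ∑ l : Fin L, (P l).eval ((x + r * y : ℕ) : ℂ) * (A ^ x * β ^ y) ^ (l : ℕ) = 0) :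
    ∀ l, P l = 0 := by
  classical
  by_contra hcon
  push Not at hcon
  obtain ⟨l₀, hl₀⟩ := hcon
  set I : Finset (Fin L) := Finset.univ.filter (fun l => P l ≠ 0) with hI
  have hl₀I : l₀ ∈ I := by simp [hI, hl₀]
  set m := I.card with hm
  have hm0 : 0 < m := Finset.card_pos.2 ⟨l₀, hl₀I⟩
  have hmL : m ≤ L := by
    have := Finset.card_le_univ I
    simpa using this
  set e : Fin m ≃ I := I.equivFin.symm with he
  have hne : ∀ j : Fin m, P (e j : Fin L) ≠ 0 := by
    intro j
    have := (e j).2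
    simp only [hI, Finset.mem_filter, Finset.mem_univ, true_and] at this
    exact this
  set M : Matrix (Fin m) (Fin m) ℂ[X] := Matrix.of fun i j =>
    (P (e j : Fin L)).comp (Polynomial.X + C ((i : ℕ) : ℂ)) *
      C (A ^ ((i : ℕ) * ((e j : Fin L) : ℕ))) with hM
  set n : Fin m → ℕ := fun j => (P (e j : Fin L)).natDegree with hn
  have hMdeg : ∀ i j, (M i j).natDegree ≤ n j := by
    intro i j
    simp only [hM, Matrix.of_apply, hn]
    refine (natDegree_mul_C_le _ _).trans ?_
    rw [natDegree_comp, natDegree_X_add_C, mul_one]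
  obtain ⟨hD1, hD2⟩ := ze_det M n hMdeg
  have hlead : M.det.coeff (∑ j, n j) ≠ 0 := by
    rw [hD2]
    have h1 : (Matrix.of fun i j => (M i j).coeff (n j)) =
        Matrix.of fun (i j : Fin m) => (P (e j : Fin L)).leadingCoeff *
          (Matrix.vandermonde (fun j : Fin m => A ^ ((e j : Fin L) : ℕ))).transpose i j := by
      ext i j
      simp only [hM, Matrix.of_apply, hn, Matrix.transpose_apply, Matrix.vandermonde_apply,
        coeff_mul_C]
      have h2 : ((P (e j : Fin L)).comp (Polynomial.X + C ((i : ℕ) : ℂ))).natDegree =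
          (P (e j : Fin L)).natDegree := by
        rw [natDegree_comp, natDegree_X_add_C, mul_one]
      have h3 : ((P (e j : Fin L)).comp (Polynomial.X + C ((i : ℕ) : ℂ))).coeff
          (P (e j : Fin L)).natDegree = (P (e j : Fin L)).leadingCoeff := by
        conv_lhs => rw [← h2]
        rw [coeff_natDegree, leadingCoeff_comp (by rw [natDegree_X_add_C]; norm_num),
          leadingCoeff_X_add_C, one_pow, mul_one]
      rw [h3, ← pow_mul, mul_comm (i : ℕ)]
    rw [h1, Matrix.det_mul_row, Matrix.det_transpose]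
    refine mul_ne_zero (Finset.prod_ne_zero_iff.2 fun j _ => leadingCoeff_ne_zero.2 (hne j)) ?_
    rw [Matrix.det_vandermonde_ne_zero_iff]
    intro j j' hjj
    have h2 := hdist _ (e j : Fin L).2 _ (e j' : Fin L).2 hjj
    exact e.injective (Subtype.ext (Fin.ext h2))
  have hD0 : M.det ≠ 0 := by
    intro h
    rw [h] at hlead
    simp at hlead
  -- the zeros
  have hroot : ∀ x < X - L, ∀ y < Y, M.det.eval ((x + r * y : ℕ) : ℂ) = 0 := by
    intro x hx y hy
    have h1 : M.det.eval ((x + r * y : ℕ) : ℂ) =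
        ((evalRingHom ((x + r * y : ℕ) : ℂ)).mapMatrix M).det := by
      rw [← RingHom.map_det]
      rfl
    rw [h1, ← Matrix.exists_mulVec_eq_zero_iff]
    refine ⟨fun j => (A ^ x * β ^ y) ^ ((e j : Fin L) : ℕ), ?_, ?_⟩
    · intro h
      have h2 := congrFun h ⟨0, hm0⟩
      simp only [Pi.zero_apply] at h2
      exact pow_ne_zero _ (mul_ne_zero (pow_ne_zero _ hA) (pow_ne_zero _ hβ)) h2
    · ext i
      have hxi : x + (i : ℕ) < X := by have := i.2; omega
      have h2 := hzero (x + i) hxi y hy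
      rw [← Finset.sum_subset (Finset.subset_univ I) (fun l _ hl => by
        have : P l = 0 := by
          by_contra h
          exact hl (by simp [hI, h])
        rw [this]; simp), ← Finset.sum_coe_sort I, ← Equiv.sum_comp e] at h2
      rw [Pi.zero_apply, ← h2]
      simp only [Matrix.mulVec, dotProduct, RingHom.mapMatrix_apply, Matrix.map_apply, hM,
        Matrix.of_apply, coe_evalRingHom, eval_mul, eval_comp, eval_add, eval_X, eval_C]
      refine Finset.sum_congr rfl (fun j _ => ?_)
      have h3 : (((x + r * y : ℕ) : ℂ) + ((i : ℕ) : ℂ)) = ((x + (i : ℕ) + r * y : ℕ) : ℂ) := by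
        push_cast; ring
      rw [h3, mul_assoc]
      congr 1
      rw [pow_mul, ← mul_pow]
      congr 1
      ring
  -- counting
  set S : Finset ℂ := (Finset.range (X - L) ×ˢ Finset.range Y).image
    (fun p : ℕ × ℕ => ((p.1 + r * p.2 : ℕ) : ℂ)) with hS
  have hScard : S.card = (X - L) * Y := by
    rw [hS, Finset.card_image_of_injOn, Finset.card_product, Finset.card_range, Finset.card_range]
    rintro ⟨x, y⟩ hxy ⟨x', y'⟩ hxy' h
    simp only [Finset.coe_product, Finset.coe_range, Set.mem_prod, Set.mem_Iio] at hxy hxy'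
    have h0 : ((x + r * y : ℕ) : ℂ) = ((x' + r * y' : ℕ) : ℂ) := h
    have h1 : x + r * y = x' + r * y' := by exact_mod_cast h0
    have hxr : x < r := by omega
    have hxr' : x' < r := by omega
    have h2 : x = x' := by
      have h3 := congrArg (· % r) h1
      simpa [Nat.add_mul_mod_self_left, Nat.mod_eq_of_lt hxr, Nat.mod_eq_of_lt hxr'] using h3
    have h4 : y = y' := by
      subst h2
      have h5 : r * y = r * y' := by omega
      exact Nat.eq_of_mul_eq_mul_left (by omega) h5
    rw [h2, h4]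
  refine hD0 (eq_zero_of_natDegree_lt_card_of_eval_eq_zero' M.det S ?_ ?_)
  · intro z hz
    simp only [hS, Finset.mem_image, Finset.mem_product, Finset.mem_range] at hz
    obtain ⟨⟨x, y⟩, ⟨hx, hy⟩, rfl⟩ := hz
    exact hroot x hx y hy
  · rw [hScard]
    refine lt_of_lt_of_le ?_ hcount
    have h1 : ∑ j, n j ≤ m * (K - 1) := by
      have h2 : ∀ j ∈ (Finset.univ : Finset (Fin m)), n j ≤ K - 1 := fun j _ => by
        have := hdeg (e j : Fin L)
        simp only [hn]
        omega
      simpa using Finset.sum_le_card_nsmul _ _ _ h2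
    have h3 : m * (K - 1) < m * K := Nat.mul_lt_mul_of_pos_left (by omega) hm0
    have h4 : m * K ≤ K * L := by
      rw [mul_comm]; exact Nat.mul_le_mul_left K hmL
    omega

/-- nonzero minor (uses zero_estimate) -/
theorem exists_nonzero_minor {K L X Y r : ℕ} (hK : 0 < K) (hL : 0 < L) (A β : ℂ) (hA : A ≠ 0)
    (hβ : β ≠ 0) (hdist : ∀ x < L, ∀ x' < L, A ^ x = A ^ x' → x = x') (hXr : X ≤ r)
    (hLX : L ≤ X) (hcount : K * L ≤ (X - L) * Y) :
    ∃ c : Fin K × Fin L → Fin X × Fin Y,
      (Matrix.of fun (i j : Fin K × Fin L) =>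
        ((Nat.choose (((c j).1 : ℕ) + r * ((c j).2 : ℕ)) (i.1 : ℕ) : ℕ) : ℂ) *
          (A ^ ((c j).1 : ℕ) * β ^ ((c j).2 : ℕ)) ^ (i.2 : ℕ)).det ≠ 0 := by
  classical
  set v : Fin X × Fin Y → (Fin K × Fin L → ℂ) := fun c i =>
    ((Nat.choose ((c.1 : ℕ) + r * (c.2 : ℕ)) (i.1 : ℕ) : ℕ) : ℂ) *
      (A ^ (c.1 : ℕ) * β ^ (c.2 : ℕ)) ^ (i.2 : ℕ) with hv
  -- the columns span
  have hspan : Submodule.span ℂ (Set.range v) = ⊤ := by
    by_contra hne
    obtain ⟨f, hf0, hf⟩ := Submodule.exists_le_ker_of_lt_top _ (lt_top_iff_ne_top.2 hne)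
    apply hf0
    set p : Fin K × Fin L → ℂ := fun i => f (Pi.single i 1) with hp
    have hfw : ∀ w : Fin K × Fin L → ℂ, f w = ∑ i, p i * w i := by
      intro w
      conv_lhs => rw [← (Pi.basisFun ℂ (Fin K × Fin L)).sum_repr w]
      rw [map_sum]
      refine Finset.sum_congr rfl (fun i _ => ?_)
      rw [map_smul]
      simp [hp, mul_comm]
    have hfv : ∀ c, ∑ i, p i * v c i = 0 := by
      intro c
      rw [← hfw]
      exact hf (Submodule.subset_span ⟨c, rfl⟩)
    set bin : ℕ → ℂ[X] := fun k => C ((1 : ℂ) / (k.factorial : ℂ)) * descPochhammer ℂ k with hbin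
    have hbe : ∀ k n : ℕ, (bin k).eval (n : ℂ) = ((n.choose k : ℕ) : ℂ) := by
      intro k n
      simp only [hbin, eval_mul, eval_C]
      rw [descPochhammer_eval_eq_descFactorial, Nat.descFactorial_eq_factorial_mul_choose]
      push_cast
      have : ((k.factorial : ℕ) : ℂ) ≠ 0 := by exact_mod_cast k.factorial_ne_zero
      field_simp
    set P : Fin L → ℂ[X] := fun l => ∑ k : Fin K, C (p (k, l)) * bin k with hP
    have hPe : ∀ l (n : ℕ), (P l).eval (n : ℂ) = ∑ k : Fin K, p (k, l) * ((n.choose k : ℕ) : ℂ) := by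
      intro l n
      simp only [hP, eval_finsetSum, eval_mul, eval_C, hbe]
    have hPdeg : ∀ l, (P l).natDegree < K := by
      intro l
      have h1 : (P l).natDegree ≤ K - 1 := by
        refine natDegree_sum_le_of_forall_le _ _ (fun k _ => ?_)
        refine (natDegree_C_mul_le _ _).trans ((natDegree_C_mul_le _ _).trans ?_)
        rw [descPochhammer_natDegree]
        have := k.2
        omega
      omega
    have hPz := zero_estimate hK hL A β hA hβ hdist hXr hLX hcount P hPdeg (by
      intro x hx y hy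
      have h1 := hfv (⟨x, hx⟩, ⟨y, hy⟩)
      rw [Fintype.sum_prod_type, Finset.sum_comm] at h1
      rw [← h1]
      refine Finset.sum_congr rfl (fun l _ => ?_)
      rw [hPe, Finset.sum_mul]
      refine Finset.sum_congr rfl (fun k _ => ?_)
      simp only [hv]
      ring)
    have hp0 : ∀ (k : ℕ) (hk : k < K) (l : Fin L), p (⟨k, hk⟩, l) = 0 := by
      intro k
      induction k using Nat.strong_induction_on with
      | _ k ih =>
        intro hk l
        have h1 := hPe l k
        rw [hPz l, eval_zero, Finset.sum_eq_single ⟨k, hk⟩] at h1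
        · simpa using h1.symm
        · intro k' _ hk'
          rcases lt_trichotomy (k' : ℕ) k with h | h | h
          · have h2 := ih k' h k'.2 l
            have h3 : ((⟨(k' : ℕ), k'.2⟩ : Fin K), l) = (k', l) := rfl
            rw [h3] at h2
            rw [h2, zero_mul]
          · exact absurd (Fin.ext h) hk'
          · rw [Nat.choose_eq_zero_of_lt h]; simp
        · intro h
          exact absurd (Finset.mem_univ _) h
    ext i
    simp only [LinearMap.coe_comp, LinearMap.coe_single, Function.comp_apply, LinearMap.zero_apply]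
    exact hp0 i.1 i.1.2 i.2
  obtain ⟨κ, a, ha, hsp, hli⟩ := exists_linearIndependent' ℂ v
  rw [hspan] at hsp
  have b := Module.Basis.mk hli hsp.ge
  have E : κ ≃ Fin K × Fin L := b.indexEquiv (Pi.basisFun ℂ (Fin K × Fin L))
  refine ⟨fun j => a (E.symm j), ?_⟩
  have h1 : LinearIndependent ℂ (fun j : Fin K × Fin L => v (a (E.symm j))) :=
    hli.comp _ E.symm.injective
  set N : Matrix (Fin K × Fin L) (Fin K × Fin L) ℂ := Matrix.of fun j i => v (a (E.symm j)) i
    with hN
  have h2 : IsUnit N := Matrix.linearIndependent_rows_iff_isUnit.1 h1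
  have h3 : N.det ≠ 0 := ((Matrix.isUnit_iff_isUnit_det N).1 h2).ne_zero
  rw [← Matrix.det_transpose] at h3
  exact h3

end Pool.Agent.Helper13.TU
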