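import Mathlib
import Pool.Agent.Helper13.TU.Defs

/-!
# The algorithm is primitive recursive (module TU-15)
-/

set_option autoImplicit false

namespace Pool.Agent.Helper13.TU

/-! ### integers -/

lemma pr_enc_nat (n : ℕ) : Encodable.encode (n : ℤ) = 2 * n := rfl

lemma pr_enc_negSucc (n : ℕ) : Encodable.encode (Int.negSucc n) = 2 * n + 1 := rfl

variable {α : Type*} [Primcodable α]

lemma pr_pow {f g : α → ℕ} (hf : Primrec f) (hg : Primrec g) : Primrec (fun a => f a ^ g a) := by
  have h : Primrec₂ (fun a b : ℕ => a ^ b) := Primrec₂.unpaired'.1 Nat.Primrec.pow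
  exact h.comp hf hg

lemma pr_natCast {f : α → ℕ} (hf : Primrec f) : Primrec (fun a => (f a : ℤ)) := by
  refine Primrec.encode_iff.1 ?_
  exact (Primrec.nat_double.comp hf).of_eq (fun a => (pr_enc_nat (f a)).symm)

lemma pr_neg {f : α → ℤ} (hf : Primrec f) : Primrec (fun a => -(f a)) := by
  have h : Primrec (fun z : ℤ => -z) := by
    refine Primrec.encode_iff.1 ?_
    have h1 : Primrec (fun z : ℤ => if Encodable.encode z % 2 = 0 then Encodable.encode z - 1
        else Encodable.encode z + 1) := by
      refine Primrec.ite ?_ ?_ ?_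
      · exact Primrec.eq.comp (Primrec.nat_mod.comp Primrec.encode (Primrec.const 2))
          (Primrec.const 0)
      · exact Primrec.nat_sub.comp Primrec.encode (Primrec.const 1)
      · exact Primrec.succ.comp Primrec.encode
    refine h1.of_eq (fun z => ?_)
    rcases z with n | n
    · rcases n with _ | n
      · rfl
      · have e1 : Encodable.encode (Int.ofNat (n + 1)) = 2 * (n + 1) := rfl
        have e2 : Encodable.encode (-(Int.ofNat (n + 1))) = 2 * n + 1 := rfl
        rw [e1, e2, if_pos (by omega)]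
        omega
    · have e1 : Encodable.encode (Int.negSucc n) = 2 * n + 1 := rfl
      have e2 : Encodable.encode (-(Int.negSucc n)) = 2 * (n + 1) := rfl
      rw [e1, e2, if_neg (by omega)]
      omega
  exact h.comp hf

lemma pr_toNat {f : α → ℤ} (hf : Primrec f) : Primrec (fun a => (f a).toNat) := by
  have h : Primrec (fun z : ℤ => z.toNat) := by
    have h1 : Primrec (fun z : ℤ => if Encodable.encode z % 2 = 0 then Encodable.encode z / 2
        else 0) := by
      refine Primrec.ite ?_ ?_ ?_
      · exact Primrec.eq.comp (Primrec.nat_mod.comp Primrec.encode (Primrec.const 2))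
          (Primrec.const 0)
      · exact Primrec.nat_div.comp Primrec.encode (Primrec.const 2)
      · exact Primrec.const 0
    refine h1.of_eq (fun z => ?_)
    rcases z with n | n
    · have e1 : Encodable.encode (Int.ofNat n) = 2 * n := rfl
      rw [e1, if_pos (by omega)]
      have e2 : (Int.ofNat n).toNat = n := rfl
      rw [e2]; omega
    · have e1 : Encodable.encode (Int.negSucc n) = 2 * n + 1 := rfl
      rw [e1, if_neg (by omega)]
      rfl
  exact h.comp hf

lemma pr_subNat {f g : α → ℕ} (hf : Primrec f) (hg : Primrec g) :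
    Primrec (fun a => (f a : ℤ) - (g a : ℤ)) := by
  have h1 : Primrec (fun a => if g a ≤ f a then ((f a - g a : ℕ) : ℤ)
      else -((g a - f a : ℕ) : ℤ)) := by
    refine Primrec.ite (Primrec.nat_le.comp hg hf) ?_ ?_
    · exact pr_natCast (Primrec.nat_sub.comp hf hg)
    · exact pr_neg (pr_natCast (Primrec.nat_sub.comp hg hf))
  refine h1.of_eq (fun a => ?_)
  split_ifs with h <;> omega

lemma pr_add {f g : α → ℤ} (hf : Primrec f) (hg : Primrec g) : Primrec (fun a => f a + g a) := by
  have h1 := pr_subNat (Primrec.nat_add.comp (pr_toNat hf) (pr_toNat hg))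
    (Primrec.nat_add.comp (pr_toNat (pr_neg hf)) (pr_toNat (pr_neg hg)))
  refine h1.of_eq (fun a => ?_)
  push_cast
  omega

lemma pr_sub {f g : α → ℤ} (hf : Primrec f) (hg : Primrec g) : Primrec (fun a => f a - g a) :=
  (pr_add hf (pr_neg hg)).of_eq (fun a => by ring)

lemma pr_mul {f g : α → ℤ} (hf : Primrec f) (hg : Primrec g) : Primrec (fun a => f a * g a) := by
  have p1 := pr_toNat hf
  have p2 := pr_toNat hg
  have n1 := pr_toNat (pr_neg hf)
  have n2 := pr_toNat (pr_neg hg)
  have h1 := pr_subNat
    (Primrec.nat_add.comp (Primrec.nat_mul.comp p1 p2) (Primrec.nat_mul.comp n1 n2))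
    (Primrec.nat_add.comp (Primrec.nat_mul.comp p1 n2) (Primrec.nat_mul.comp n1 p2))
  refine h1.of_eq (fun a => ?_)
  have e1 : ∀ z : ℤ, z = (z.toNat : ℤ) - ((-z).toNat : ℤ) := fun z => by omega
  conv_rhs => rw [e1 (f a), e1 (g a)]
  push_cast
  ring

lemma pr_natAbs {f : α → ℤ} (hf : Primrec f) : Primrec (fun a => (f a).natAbs) :=
  (Primrec.nat_add.comp (pr_toNat hf) (pr_toNat (pr_neg hf))).of_eq (fun a => by omega)

/-! ### lists -/

lemma pr_getD {f : α → List ℤ} {g : α → ℕ} (hf : Primrec f) (hg : Primrec g) :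
    Primrec (fun a => (f a).getD (g a) 0) :=
  (Primrec.list_getD (0 : ℤ)).comp hf hg

lemma pr_length {β : Type*} [Primcodable β] {f : α → List β} (hf : Primrec f) :
    Primrec (fun a => (f a).length) :=
  Primrec.list_length.comp hf

lemma pr_addL {d : α → ℕ} {f g : α → List ℤ} (hd : Primrec d) (hf : Primrec f)
    (hg : Primrec g) : Primrec (fun a => addL (d a) (f a) (g a)) := by
  unfold addL
  refine Primrec.list_map (Primrec.list_range.comp hd) ?_
  exact pr_add (pr_getD (hf.comp Primrec.fst) Primrec.snd) (pr_getD (hg.comp Primrec.fst)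
    Primrec.snd)

lemma pr_smulL {d : α → ℕ} {t : α → ℤ} {f : α → List ℤ} (hd : Primrec d) (ht : Primrec t)
    (hf : Primrec f) : Primrec (fun a => smulL (d a) (t a) (f a)) := by
  unfold smulL
  refine Primrec.list_map (Primrec.list_range.comp hd) ?_
  exact pr_mul (ht.comp Primrec.fst) (pr_getD (hf.comp Primrec.fst) Primrec.snd)

lemma pr_shiftL {c f : α → List ℤ} (hc : Primrec c) (hf : Primrec f) :
    Primrec (fun a => shiftL (c a) (f a)) := by
  unfold shiftL
  refine Primrec.list_map (Primrec.list_range.comp (pr_length hc)) ?_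
  have hc' : Primrec (fun p : α × ℕ => c p.1) := hc.comp Primrec.fst
  have hf' : Primrec (fun p : α × ℕ => f p.1) := hf.comp Primrec.fst
  have hi : Primrec (fun p : α × ℕ => p.2) := Primrec.snd
  refine pr_sub ?_ ?_
  · refine Primrec.ite (Primrec.eq.comp hi (Primrec.const 0)) (Primrec.const 0) ?_
    exact pr_getD hf' (Primrec.nat_sub.comp hi (Primrec.const 1))
  · refine pr_mul ?_ (pr_getD hc' hi)
    exact pr_getD hf' (Primrec.nat_sub.comp (pr_length hc') (Primrec.const 1))

lemma pr_mulL {c f g : α → List ℤ} (hc : Primrec c) (hf : Primrec f) (hg : Primrec g) :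
    Primrec (fun a => mulL (c a) (f a) (g a)) := by
  unfold mulL
  refine Primrec.list_foldr (f := f) (g := fun _ => ([] : List ℤ))
    (h := fun a p => addL (c a).length (smulL (c a).length p.1 (g a)) (shiftL (c a) p.2))
    hf (Primrec.const []) ?_
  have hc' : Primrec (fun p : α × (ℤ × List ℤ) => c p.1) := hc.comp Primrec.fst
  have hg' : Primrec (fun p : α × (ℤ × List ℤ) => g p.1) := hg.comp Primrec.fst
  have h1 : Primrec (fun p : α × (ℤ × List ℤ) => p.2.1) := Primrec.fst.comp Primrec.snd
  have h2 : Primrec (fun p : α × (ℤ × List ℤ) => p.2.2) := Primrec.snd.comp Primrec.snd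
  exact pr_addL (pr_length hc') (pr_smulL (pr_length hc') h1 hg') (pr_shiftL hc' h2)

lemma pr_derivL {c : α → List ℤ} (hc : Primrec c) : Primrec (fun a => derivL (c a)) := by
  unfold derivL
  refine Primrec.list_map (Primrec.list_range.comp (pr_length hc)) ?_
  have hc' : Primrec (fun p : α × ℕ => c p.1) := hc.comp Primrec.fst
  have hi : Primrec (fun p : α × ℕ => p.2) := Primrec.snd
  have hi1 : Primrec (fun p : α × ℕ => p.2 + 1) := Primrec.succ.comp Primrec.snd
  refine pr_mul (pr_add (pr_natCast hi) (Primrec.const 1)) ?_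
  exact Primrec.ite (Primrec.eq.comp hi1 (pr_length hc')) (Primrec.const 1) (pr_getD hc' hi1)

lemma pr_homL {c g D P : α → List ℤ} (hc : Primrec c) (hg : Primrec g) (hD : Primrec D)
    (hP : Primrec P) : Primrec (fun a => homL (c a) (g a) (D a) (P a)) := by
  unfold homL
  refine Primrec.fst.comp ?_
  refine Primrec.list_foldr (f := P) (g := fun _ => (([1], [1]) : List ℤ × List ℤ))
    (h := fun a p => (addL (c a).length (mulL (c a) p.2.1 (g a))
      (smulL (c a).length p.1 (mulL (c a) p.2.2 (D a))), mulL (c a) p.2.2 (D a)))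
    hP (Primrec.const _) ?_
  have hc' : Primrec (fun p : α × (ℤ × (List ℤ × List ℤ)) => c p.1) := hc.comp Primrec.fst
  have hg' : Primrec (fun p : α × (ℤ × (List ℤ × List ℤ)) => g p.1) := hg.comp Primrec.fst
  have hD' : Primrec (fun p : α × (ℤ × (List ℤ × List ℤ)) => D p.1) := hD.comp Primrec.fst
  have ht : Primrec (fun p : α × (ℤ × (List ℤ × List ℤ)) => p.2.1) :=
    Primrec.fst.comp Primrec.snd
  have h1 : Primrec (fun p : α × (ℤ × (List ℤ × List ℤ)) => p.2.2.1) :=
    Primrec.fst.comp (Primrec.snd.comp Primrec.snd)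
  have h2 : Primrec (fun p : α × (ℤ × (List ℤ × List ℤ)) => p.2.2.2) :=
    Primrec.snd.comp (Primrec.snd.comp Primrec.snd)
  exact Primrec.pair (pr_addL (pr_length hc') (pr_mulL hc' h1 hg')
    (pr_smulL (pr_length hc') ht (pr_mulL hc' h2 hD'))) (pr_mulL hc' h2 hD')

lemma pr_boxes_eq (k H : ℕ) : boxes k H = Nat.rec ([[]] : List (List ℤ))
    (fun _ L => L.flatMap fun l => (List.range (2 * H + 1)).map fun (t : ℕ) =>
      ((t : ℤ) - (H : ℤ)) :: l) k := by
  induction k with
  | zero => rfl
  | succ k ih =>
    have h1 : boxes (k + 1) H = (boxes k H).flatMap fun l =>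
        (((List.range (2 * H + 1)).flatMap fun (a : ℕ) => [(a : ℤ)]).map fun (t : ℤ) =>
          (t - (H : ℤ)) :: l) := rfl
    have h2 : ∀ l : List ℤ,
        (((List.range (2 * H + 1)).flatMap fun (a : ℕ) => [(a : ℤ)]).map fun (t : ℤ) =>
          (t - (H : ℤ)) :: l) = (List.range (2 * H + 1)).map fun (t : ℕ) =>
          ((t : ℤ) - (H : ℤ)) :: l := by
      intro l
      rw [List.map_flatMap, List.map_eq_flatMap]
      rfl
    rw [h1, ih]
    simp only [h2]

lemma pr_boxes {k H : α → ℕ} (hk : Primrec k) (hH : Primrec H) :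
    Primrec (fun a => boxes (k a) (H a)) := by
  simp only [pr_boxes_eq]
  refine Primrec.nat_rec' (f := k) (g := fun _ => ([[]] : List (List ℤ)))
    (h := fun a p => p.2.flatMap fun l => (List.range (2 * H a + 1)).map fun (t : ℕ) =>
      ((t : ℤ) - (H a : ℤ)) :: l) hk (Primrec.const _) ?_
  refine Primrec.list_flatMap (Primrec.snd.comp Primrec.snd) ?_
  refine Primrec.list_map (Primrec.list_range.comp ?_) ?_
  · exact Primrec.nat_double_succ.comp (hH.comp (Primrec.fst.comp Primrec.fst))
  · refine Primrec.list_cons.comp ?_ (Primrec.snd.comp Primrec.fst)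
    exact pr_subNat Primrec.snd (hH.comp (Primrec.fst.comp (Primrec.fst.comp Primrec.fst)))

lemma pr_any {β : Type*} [Primcodable β] {f : α → List β} {g : α → β → Bool} (hf : Primrec f)
    (hg : Primrec₂ g) : Primrec (fun a => (f a).any (g a)) := by
  have h1 : Primrec (fun a => (f a).foldr (fun b s => g a b || s) false) := by
    refine Primrec.list_foldr (f := f) (g := fun _ => false)
      (h := fun a p => g a p.1 || p.2) hf (Primrec.const _) ?_
    exact Primrec.or.comp (hg.comp Primrec.fst (Primrec.fst.comp Primrec.snd))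
      (Primrec.snd.comp Primrec.snd)
  refine h1.of_eq (fun a => ?_)
  induction f a with
  | nil => rfl
  | cons b l ih => rw [List.foldr_cons, ih, List.any_cons]

lemma pr_all {β : Type*} [Primcodable β] {f : α → List β} {g : α → β → Bool} (hf : Primrec f)
    (hg : Primrec₂ g) : Primrec (fun a => (f a).all (g a)) := by
  have h1 : Primrec (fun a => (f a).foldr (fun b s => g a b && s) true) := by
    refine Primrec.list_foldr (f := f) (g := fun _ => true)
      (h := fun a p => g a p.1 && p.2) hf (Primrec.const _) ?_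
    exact Primrec.and.comp (hg.comp Primrec.fst (Primrec.fst.comp Primrec.snd))
      (Primrec.snd.comp Primrec.snd)
  refine h1.of_eq (fun a => ?_)
  induction f a with
  | nil => rfl
  | cons b l ih => rw [List.foldr_cons, ih, List.all_cons]

lemma pr_allZero {f : α → List ℤ} (hf : Primrec f) : Primrec (fun a => (f a).all (· == 0)) :=
  pr_all hf (Primrec.beq.comp Primrec.snd (Primrec.const 0))

lemma pr_testL {c : α → List ℤ} {G H n : α → ℕ} (hc : Primrec c) (hG : Primrec G)
    (hH : Primrec H) (hn : Primrec n) : Primrec (fun a => testL (c a) (G a) (H a) (n a)) := by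
  unfold testL
  refine pr_any (pr_boxes (pr_length hc) hG) ?_
  refine pr_any (pr_boxes (pr_length (hc.comp Primrec.fst)) (hH.comp Primrec.fst)) ?_
  refine pr_any (pr_boxes (pr_length (hc.comp (Primrec.fst.comp Primrec.fst)))
    (hH.comp (Primrec.fst.comp Primrec.fst))) ?_
  have hc' : Primrec (fun p : ((α × List ℤ) × List ℤ) × List ℤ => c p.1.1.1) :=
    hc.comp (Primrec.fst.comp (Primrec.fst.comp Primrec.fst))
  have hn' : Primrec (fun p : ((α × List ℤ) × List ℤ) × List ℤ => n p.1.1.1) :=
    hn.comp (Primrec.fst.comp (Primrec.fst.comp Primrec.fst))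
  have hg' : Primrec (fun p : ((α × List ℤ) × List ℤ) × List ℤ => p.1.1.2) :=
    Primrec.snd.comp (Primrec.fst.comp Primrec.fst)
  have hP' : Primrec (fun p : ((α × List ℤ) × List ℤ) × List ℤ => p.1.2) :=
    Primrec.snd.comp Primrec.fst
  have hQ' : Primrec (fun p : ((α × List ℤ) × List ℤ) × List ℤ => p.2) := Primrec.snd
  refine Primrec.and.comp (Primrec.and.comp (Primrec.and.comp ?_ ?_) ?_) ?_
  · exact Primrec.beq.comp (pr_natAbs (pr_getD hP' (Primrec.const 0))) (Primrec.const 1)
  · exact Primrec.beq.comp (pr_natAbs (pr_getD hQ' (Primrec.const 0))) (Primrec.const 1)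
  · exact pr_allZero (pr_homL hc' hg' (pr_derivL hc') hP')
  · refine pr_allZero (pr_homL hc' ?_ (pr_derivL hc') hQ')
    exact pr_addL (pr_length hc') (pr_smulL (pr_length hc') (pr_natCast hn') (pr_derivL hc'))
      (pr_smulL (pr_length hc') (Primrec.const (-1)) hg')

/-! ### the constants -/

lemma pr_cM {d R : α → ℕ} (hd : Primrec d) (hR : Primrec R) :
    Primrec (fun a => cM (d a) (R a)) := by
  unfold cM
  exact Primrec.nat_mul.comp (Primrec.nat_mul.comp (Primrec.const 8) hd) (pr_pow hR hd)

lemma pr_cellBd {d R q : α → ℕ} (hd : Primrec d) (hR : Primrec R) (hq : Primrec q) :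
    Primrec (fun a => cellBd (d a) (R a) (q a)) := by
  unfold cellBd
  have hM := pr_cM hd hR
  refine Primrec.nat_mul.comp (Primrec.nat_mul.comp ?_ ?_)
    (Primrec.nat_mul.comp (Primrec.const 8) hq)
  · exact pr_pow (Primrec.succ.comp (pr_pow hM hd))
      (Primrec.nat_mul.comp (Primrec.const 2) (Primrec.succ.comp hd))
  · refine pr_pow ?_ (Primrec.nat_mul.comp (Primrec.const 2) hd)
    exact Primrec.nat_mul.comp (Primrec.nat_mul.comp (Primrec.const 4)
      (Primrec.succ.comp (Primrec.nat_mul.comp hd hM))) hq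

lemma pr_pOf {d : α → ℕ} (hd : Primrec d) : Primrec (fun a => pOf (d a)) := by
  unfold pOf
  exact Primrec.nat_add.comp (Primrec.const 64) (Primrec.nat_mul.comp (Primrec.const 16) hd)

lemma pr_B0 {d R p : α → ℕ} (hd : Primrec d) (hR : Primrec R) (hp : Primrec p) :
    Primrec (fun a => B0 (d a) (R a) (p a)) := by
  unfold B0
  have h2p := pr_pow (Primrec.const (α := α) 2) hp
  exact Primrec.nat_mul.comp (Primrec.nat_mul.comp (Primrec.const 8)
    (pr_pow (pr_cellBd hd hR h2p) (Primrec.const 2))) h2p

lemma pr_RL {c : α → List ℤ} (hc : Primrec c) : Primrec (fun a => RL (c a)) := by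
  have h1 : Primrec (fun a => 1 + (c a).foldr (fun z s => z.natAbs + s) 0) := by
    refine Primrec.nat_add.comp (Primrec.const 1) ?_
    refine Primrec.list_foldr (f := c) (g := fun _ => 0)
      (h := fun _ p => p.1.natAbs + p.2) hc (Primrec.const _) ?_
    exact Primrec.nat_add.comp (pr_natAbs (Primrec.fst.comp Primrec.snd))
      (Primrec.snd.comp Primrec.snd)
  refine h1.of_eq (fun a => ?_)
  unfold RL
  congr 1
  induction c a with
  | nil => rfl
  | cons b l ih => rw [List.foldr_cons, ih, List.map_cons, List.sum_cons]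

lemma pr_TL {c : α → List ℤ} (hc : Primrec c) : Primrec (fun a => TL (c a)) := by
  unfold TL
  exact pr_pow (Primrec.const 3) (pr_B0 (pr_length hc) (pr_RL hc) (pr_pOf (pr_length hc)))

/-! ### the algorithm -/

theorem algo_primrec : Primrec algo := by
  have hT : Primrec (fun c : List ℤ => TL c) := pr_TL Primrec.id
  have hl : Primrec (fun c : List ℤ => c.length) := Primrec.list_length
  have hR : Primrec (fun c : List ℤ => RL c) := pr_RL Primrec.id
  have hG : Primrec (fun c : List ℤ => c.length * TL c * RL c ^ (c.length + 1)) :=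
    Primrec.nat_mul.comp (Primrec.nat_mul.comp hl hT) (pr_pow hR (Primrec.succ.comp hl))
  have hH : Primrec (fun c : List ℤ => (2 * TL c) ^ c.length) :=
    pr_pow (Primrec.nat_mul.comp (Primrec.const 2) hT) hl
  have h1 : Primrec (fun c : List ℤ => (List.range (2 * TL c + 1)).filterMap fun n =>
      cond (decide (1 ≤ n) && testL c (c.length * TL c * RL c ^ (c.length + 1))
        ((2 * TL c) ^ c.length) n) (some n) none) := by
    refine Primrec.listFilterMap (Primrec.list_range.comp (Primrec.nat_double_succ.comp hT)) ?_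
    refine Primrec.cond ?_ (Primrec.option_some.comp Primrec.snd) (Primrec.const none)
    refine Primrec.and.comp ?_ ?_
    · exact Primrec.nat_le.decide.comp (Primrec.const 1) Primrec.snd
    · exact pr_testL Primrec.fst (hG.comp Primrec.fst) (hH.comp Primrec.fst) Primrec.snd
  refine h1.of_eq (fun c => ?_)
  unfold algo
  rw [← List.filterMap_eq_filter]
  refine List.filterMap_congr (fun n _ => ?_)
  rw [Option.guard]
  cases (decide (1 ≤ n) && testL c (c.length * TL c * RL c ^ (c.length + 1))
    ((2 * TL c) ^ c.length) n) <;> rfl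

end Pool.Agent.Helper13.TU
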